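import Pool.Agent.H46.EXC.Stmts

/-!
# EXC, module KRF: partition of dyadic weights
-/

set_option autoImplicit false

namespace Pool.EXC

open Finset

namespace H71K

theorem scale {ι : Type} (A : Finset ι) (d : ι → ℕ) (m : ℕ) (h : ∀ k ∈ A, d k ≤ m) :
    ∑ k ∈ A, (1 / 2 : ℝ) ^ d k = ((∑ k ∈ A, 2 ^ (m - d k) : ℕ) : ℝ) * (1 / 2) ^ m := by
  push_cast
  rw [Finset.sum_mul]
  refine Finset.sum_congr rfl fun k hk => ?_
  have h1 := h k hk
  have e : m = (m - d k) + d k := by omega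
  conv_rhs => rw [e, pow_add, Nat.add_sub_cancel]
  rw [← mul_assoc, ← mul_pow]
  norm_num

end H71K

open H71K

theorem krf_thm : S_KRF := by
  intro ι _ S d D
  refine Finset.induction_on_max_value (motive := fun S => (∀ k ∈ S, D + 1 ≤ d k) →
    ∑ k ∈ S, (1 / 2 : ℝ) ^ d k ≤ (1 / 2) ^ D →
    ∃ S1 ⊆ S, ∑ k ∈ S1, (1 / 2 : ℝ) ^ d k ≤ (1 / 2) ^ (D + 1) ∧
      ∑ k ∈ S \ S1, (1 / 2 : ℝ) ^ d k ≤ (1 / 2) ^ (D + 1)) d S ?_ ?_
  · intro _ _
    refine ⟨∅, Finset.Subset.refl _, ?_, ?_⟩ <;> simp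
  · intro a s ha hmax ih hd hsum
    rw [Finset.sum_insert ha] at hsum
    have hda : D + 1 ≤ d a := hd a (Finset.mem_insert_self _ _)
    have hpos : (0 : ℝ) < (1 / 2) ^ d a := by positivity
    obtain ⟨S1, hS1, h1, h2⟩ := ih (fun k hk => hd k (Finset.mem_insert_of_mem hk)) (by linarith)
    have hle1 : ∀ k ∈ S1, d k ≤ d a := fun k hk => hmax k (hS1 hk)
    have hle2 : ∀ k ∈ s \ S1, d k ≤ d a := fun k hk => hmax k (Finset.mem_sdiff.1 hk).1
    have e1 := scale S1 d (d a) hle1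
    have e2 := scale (s \ S1) d (d a) hle2
    set X : ℕ := ∑ k ∈ S1, 2 ^ (d a - d k) with hX
    set Y : ℕ := ∑ k ∈ s \ S1, 2 ^ (d a - d k) with hY
    set B : ℕ := 2 ^ (d a - (D + 1)) with hB
    have eB : (1 / 2 : ℝ) ^ (D + 1) = (B : ℝ) * (1 / 2) ^ d a := by
      have e : d a = (d a - (D + 1)) + (D + 1) := by omega
      conv_rhs => rw [e, pow_add]
      rw [hB]
      push_cast
      rw [← mul_assoc, ← mul_pow]
      norm_num
    have eB2 : (1 / 2 : ℝ) ^ D = 2 * ((B : ℝ) * (1 / 2) ^ d a) := by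
      rw [← eB, pow_succ]
      ring
    have hsplit : ∑ k ∈ s, (1 / 2 : ℝ) ^ d k = (X : ℝ) * (1 / 2) ^ d a + Y * (1 / 2) ^ d a := by
      rw [← e1, ← e2, add_comm]
      exact (Finset.sum_sdiff hS1).symm
    have hXB : X ≤ B := by
      rw [e1, eB] at h1
      exact_mod_cast le_of_mul_le_mul_right h1 hpos
    have hYB : Y ≤ B := by
      rw [e2, eB] at h2
      exact_mod_cast le_of_mul_le_mul_right h2 hpos
    have hT : 1 + X + Y ≤ 2 * B := by
      rw [hsplit, eB2] at hsum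
      have h3 : (1 + (X : ℝ) + Y) * (1 / 2) ^ d a ≤ (2 * (B : ℝ)) * (1 / 2) ^ d a := by linarith
      exact_mod_cast le_of_mul_le_mul_right h3 hpos
    have haS1 : a ∉ S1 := fun h => ha (hS1 h)
    by_cases hc : X + 1 ≤ B
    · refine ⟨insert a S1, Finset.insert_subset_insert a hS1, ?_, ?_⟩
      · rw [Finset.sum_insert haS1, e1, eB]
        have : ((X : ℝ) + 1) * (1 / 2) ^ d a ≤ (B : ℝ) * (1 / 2) ^ d a :=
          mul_le_mul_of_nonneg_right (by exact_mod_cast hc) hpos.le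
        linarith
      · have e3 : insert a s \ insert a S1 = s \ S1 := by
          ext k
          simp only [Finset.mem_sdiff, Finset.mem_insert, not_or]
          constructor
          · rintro ⟨h3, h4, h5⟩
            exact ⟨h3.resolve_left h4, h5⟩
          · rintro ⟨h3, h4⟩
            exact ⟨Or.inr h3, fun h5 => ha (h5 ▸ h3), h4⟩
        rw [e3]
        exact h2
    · have hc' : Y + 1 ≤ B := by omega
      refine ⟨S1, hS1.trans (Finset.subset_insert _ _), h1, ?_⟩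
      have e3 : insert a s \ S1 = insert a (s \ S1) := by
        ext k
        simp only [Finset.mem_sdiff, Finset.mem_insert]
        constructor
        · rintro ⟨h3, h4⟩
          rcases h3 with h3 | h3
          · exact Or.inl h3
          · exact Or.inr ⟨h3, h4⟩
        · rintro (h3 | ⟨h3, h4⟩)
          · exact ⟨Or.inl h3, fun h5 => haS1 (h3 ▸ h5)⟩
          · exact ⟨Or.inr h3, h4⟩
      rw [e3, Finset.sum_insert (fun h => ha (Finset.mem_sdiff.1 h).1), e2, eB]
      have : ((Y : ℝ) + 1) * (1 / 2) ^ d a ≤ (B : ℝ) * (1 / 2) ^ d a :=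
        mul_le_mul_of_nonneg_right (by exact_mod_cast hc') hpos.le
      linarith

end Pool.EXC
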